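import Pool.Agent.X260.KG.Ends
import Pool.Agent.X260.KG.Rk

/-!
# The Kurosh group is metrizably-ended but has infinite Kurosh rank

`Kur` is Kurosh's group `⟨a_n (n ≥ 0), b_n (n ≥ 1) | a_n b_n a_n⁻¹ b_n⁻¹ = a_(n-1) (n ≥ 1)⟩`
(`Gen.b n` is the generator `b_(n+1)`).  It is countable and torsion-free, the Boolean algebra of
its almost invariant subsets is countable and its space of ends is metrizable, but it is not a free
product of finitely many freely indecomposable groups.  So the answer to Q1 is no.
-/

set_option autoImplicit false

namespace Pool.Agent.Results.MP_879d44_al.KuroshGroupEnds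

open Pool.Agent.X260.KG

/-- The Kurosh group is countable, torsion-free, has a countable Boolean algebra of almost
invariant subsets and a metrizable space of ends, and has no finite Kurosh rank.  Hence it is false
that a countable torsion-free group is metrizably-ended iff it has finite Kurosh rank. -/
theorem result :
    (Countable Kur ∧ (∀ g : Kur, g ≠ 1 → ∀ n : ℕ, 0 < n → g ^ n ≠ 1) ∧
      Countable {S : Set Kur // AlmostInvariant S} ∧
      TopologicalSpace.MetrizableSpace (EndSpace Kur) ∧
      ¬ FiniteKuroshRank Kur) ∧
    ¬ (∀ (G : Type) [Group G] [Countable G], (∀ g : G, g ≠ 1 → ∀ n : ℕ, 0 < n → g ^ n ≠ 1) →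
      (TopologicalSpace.MetrizableSpace (EndSpace G) ↔ FiniteKuroshRank G)) := by
  have hm : TopologicalSpace.MetrizableSpace (EndSpace Kur) :=
    metrizable_of_countable Kur kur_ai_countable
  refine ⟨⟨kur_countable, kur_tf, kur_ai_countable, hm, kur_rank⟩, ?_⟩
  intro h
  exact kur_rank ((h Kur kur_tf).1 hm)

end Pool.Agent.Results.MP_879d44_al.KuroshGroupEnds
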